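import Pool.Agent.Helper12.TS.St
import Pool.Agent.Helper36.NK.M_KCA
import Pool.Agent.Helper86.NK.M_PTR
import Pool.Agent.Helper41.AJ.M_CON

/-!
Module PLC of project TS (MP_d63854_co): components of planar type are single vertices.
-/

set_option autoImplicit false

namespace Pool.Agent.Helper13.TS

open Pool.Agent.Helper12.TS
open Pool.Agent.Helper51.AJ (IsMinor Planar Apex ExMinor Con Tch)
open Pool.Agent.Helper12.NK (rst Kc add)

variable {V : Type}

private theorem pl_mono [Finite V] {H H' : SimpleGraph V} (h : H ≤ H') (hp : Planar H') : Planar H :=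
  (Pool.Agent.Helper36.NK.hKCA Pool.Agent.Helper86.NK.hPTR V H Set.univ).2.2.2.2.2.1 H H' h hp

private theorem con_rst [Finite V] {G : SimpleGraph V} {U S : Set V} (h : S ⊆ U) (hc : Con G S) :
    Con (rst G U) S :=
  ((Pool.Agent.Helper36.NK.hKCA Pool.Agent.Helper86.NK.hPTR V G U).2.2.2.1 S h).1 hc

/-- the third element -/
private theorem third [Finite V] {S : Set V} (hS : S.ncard = 3) {a b : V} (ha : a ∈ S) (hb : b ∈ S)
    (hab : a ≠ b) : ∃ s ∈ S, S \ {s} = {a, b} := by
  have h1 : ({a, b} : Set V) ⊆ S := by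
    rintro x (rfl | rfl)
    · exact ha
    · exact hb
  have h2 : (S \ {a, b}).ncard = 1 := by
    rw [Set.ncard_sdiff h1, Set.ncard_pair hab, hS]
  obtain ⟨s, hs⟩ := Set.ncard_eq_one.1 h2
  have hs1 : s ∈ S \ {a, b} := by
    rw [hs]
    exact rfl
  refine ⟨s, hs1.1, ?_⟩
  ext x
  constructor
  · rintro ⟨hx, hxs⟩
    by_contra hx2
    have : x ∈ S \ {a, b} := ⟨hx, hx2⟩
    rw [hs] at this
    exact hxs this
  · intro hx
    refine ⟨h1 hx, fun hxs => ?_⟩
    rw [Set.mem_singleton_iff] at hxs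
    subst hxs
    exact hs1.2 hx

/-- the two other elements -/
private theorem others [Finite V] {S : Set V} (hS : S.ncard = 3) {v : V} (hv : v ∈ S) :
    ∃ a b, a ≠ b ∧ S \ {v} = {a, b} := by
  have h2 : (S \ {v}).ncard = 2 := by
    rw [Set.ncard_sdiff (Set.singleton_subset_iff.2 hv), Set.ncard_singleton, hS]
  obtain ⟨a, b, hab, h⟩ := Set.ncard_eq_two.1 h2
  exact ⟨a, b, hab, h⟩

theorem hPLC : StQUO → StCMP → StLNK → StTHR → StSTG → StRTP → StRTQ → StPLC := by
  intro hQUO hCMP hLNK hTHR hSTG hRTP hRTQ V _ G S C hM hK hS hC hP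
  have hpl : Planar (rst G (C ∪ S) ⊔ cl S) := not_not.1 hP
  by_contra hne
  obtain ⟨hCS, hCc, hCcl⟩ := id hC
  have hCn : C.Nonempty := Pool.Agent.Helper51.AJ.con_nonempty hCc
  have hC2 : 2 ≤ C.ncard := by
    have : 0 < C.ncard := (Set.ncard_pos).2 hCn
    omega
  obtain ⟨y, ρ, hyC, hρy, hoff, hinn, hfib, hyS, a, haS, b, hbS, hHab⟩ :=
    hRTQ V G S C hS hC (hRTP V G S C hK hS hC hC2)
  have hdis : ∀ x, x ∈ C → x ∈ S → False := fun x h1 h2 => Set.disjoint_left.1 hCS h1 h2
  -- an edge is lost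
  have hlost : ∃ x x', G.Adj x x' ∧ ρ x = ρ x' := by
    obtain ⟨x, hxC, hxy⟩ := Set.exists_ne_of_one_lt_ncard (by omega : 1 < C.ncard) y
    have hF := hfib x
    have hxF : x ∈ {z | ρ z = ρ x} := rfl
    have hne2 : ({x} : Set V) ≠ {z | ρ z = ρ x} := by
      intro he
      rcases hinn x hxC with h | h
      · have : y ∈ ({x} : Set V) := by
          rw [he]
          exact hρy.trans h.symm
        exact hxy (Set.mem_singleton_iff.1 this).symm
      · have : ρ x ∈ ({x} : Set V) := by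
          rw [he]
          exact hoff (ρ x) fun hc => hdis _ hc h
        rw [Set.mem_singleton_iff] at this
        rw [this] at h
        exact hdis x hxC h
    obtain ⟨x1, hx1, x', hx', hadj⟩ := (Pool.Agent.Helper41.AJ.hCON V G _ hF).1 {x}
      (Set.singleton_subset_iff.2 hxF) ⟨x, rfl⟩ hne2
    rw [Set.mem_singleton_iff] at hx1
    subst hx1
    exact ⟨x1, x', hadj, (show ρ x' = ρ x1 from hx'.1).symm⟩
  obtain ⟨x0, x0', hx0, hρ0⟩ := hlost
  obtain ⟨v, hv⟩ := hM.2 G Set.univ ρ le_rfl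
    (fun x _ => by
      have := hfib x
      have e : {z | z ∈ Set.univ ∧ ρ z = ρ x} = {z | ρ z = ρ x} := by
        ext z
        simp
      rw [e]
      exact this)
    ⟨x0, x0', hx0, fun h => h.2.2.2 hρ0⟩
  -- other components
  have hst : ∀ s ∈ S, ∃ C', Cmp G S C' ∧ (∀ x, x ∈ C' → x ∈ C → False) ∧ Stg G S C' s := by
    intro s hs
    obtain ⟨C', h1, h2⟩ := hSTG V G S hM.1 hS s hs
    refine ⟨C', h1, ?_, h2⟩
    have hcc : C' ≠ C := by
      rintro rfl
      refine h2 (pl_mono ?_ hpl)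
      intro p q hpq
      rcases hpq with h | h
      · left
        refine ⟨h.1, ?_, ?_⟩
        · exact h.2.1.imp id fun h => h.1
        · exact h.2.2.imp id fun h => h.1
      · right
        exact ⟨h.1, h.2.1.1, h.2.2.1⟩
    intro x hx hx'
    exact Set.disjoint_left.1 ((hCMP V G S).2.1 C' C h1 hC hcc) hx hx'
  have hle : ∀ (C' : Set V) (p q : V), (∀ x, x ∈ C' → x ∈ C → False) → p ∈ S → q ∈ S → v ∉ C' → p ≠ v →
      q ≠ v → rst G (C' ∪ {p, q}) ≤ rst (quo G Set.univ ρ) {v}ᶜ := by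
    intro C' p q hC' hp hq hvC' hpv hqv
    have h3 := (hQUO V G Set.univ ρ).2.2.1 (C' ∪ {p, q}) (Set.subset_univ _) (by
      intro x hx
      apply hoff
      intro hxC
      rcases hx with hx | hx | hx
      · exact hC' x hx hxC
      · subst hx
        exact hdis _ hxC hp
      · rw [Set.mem_singleton_iff] at hx
        subst hx
        exact hdis _ hxC hq)
    intro x z hxz
    have hnv : ∀ x, x ∈ C' ∪ {p, q} → x ∈ ({v}ᶜ : Set V) := by
      rintro x (hx | hx | hx) hxv
      · rw [Set.mem_singleton_iff] at hxv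
        subst hxv
        exact hvC' hx
      · subst hx
        exact hpv hxv
      · rw [Set.mem_singleton_iff] at hx
        subst hx
        exact hqv hxv
    exact ⟨h3 hxz, hnv _ hxz.2.1, hnv _ hxz.2.2⟩
  by_cases hvC : v ∈ C
  · -- (i)
    have hab : a ≠ b := hHab.1
    obtain ⟨s, hs, hss⟩ := third hS haS hbS hab
    obtain ⟨C', h1, h2, h3⟩ := hst s hs
    have hav : a ≠ v := by
      rintro rfl
      exact hdis _ hvC haS
    have hbv : b ≠ v := by
      rintro rfl
      exact hdis _ hvC hbS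
    refine h3 ?_
    rw [hss]
    refine hLNK V G (rst (quo G Set.univ ρ) {v}ᶜ) C' ∅ a b (hle C' a b h2 haS hbS (fun h => h2 v h hvC) hav hbv)
      (Set.empty_disjoint _) (Or.inl ⟨hHab, hav, hbv⟩) hv
  by_cases hvS : v ∈ S
  · -- (ii)
    obtain ⟨p, q, hpq, hpq2⟩ := others hS hvS
    obtain ⟨C', h1, h2, h3⟩ := hst v hvS
    have hp : p ∈ S \ {v} := by
      rw [hpq2]
      exact Or.inl rfl
    have hq : q ∈ S \ {v} := by
      rw [hpq2]
      exact Or.inr rfl
    have hyv : y ≠ v := by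
      rintro rfl
      exact hvC hyC
    refine h3 ?_
    rw [hpq2]
    refine hLNK V G (rst (quo G Set.univ ρ) {v}ᶜ) C' {y} p q
      (hle C' p q h2 hp.1 hq.1 (fun h => Set.disjoint_left.1 h1.1 h hvS) hp.2 hq.2)
      ?_ (Or.inr ⟨{y}, subset_rfl, Pool.Agent.Helper51.AJ.con_singleton _ y, ?_, ?_⟩) hv
    · rw [Set.disjoint_singleton_left]
      rintro (h | h | h)
      · exact h2 y h hyC
      · subst h
        exact hdis _ hyC hp.1
      · rw [Set.mem_singleton_iff] at h
        subst h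
        exact hdis _ hyC hq.1
    · exact ⟨p, rfl, y, rfl, (hyS p hp.1).symm, hp.2, hyv⟩
    · exact ⟨q, rfl, y, rfl, (hyS q hq.1).symm, hq.2, hyv⟩
  · -- (iii)
    refine hM.1 v (hTHR V (rst G {v}ᶜ) C S y hS hCS ?_ ?_ hyC ?_ ?_)
    · refine con_rst ?_ hCc
      intro x hx hxv
      rw [Set.mem_singleton_iff] at hxv
      subst hxv
      exact hvC hx
    · intro x hx z hz h
      exact hCcl x hx z hz h.1
    · refine pl_mono ?_ hpl
      intro p q hpq
      rcases hpq with h | h
      · exact Or.inl ⟨h.1.1, h.2.1, h.2.2⟩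
      · exact Or.inr h
    · refine pl_mono ?_ hv
      have hyv : y ∈ ({v}ᶜ : Set V) := by
        rintro h
        rw [Set.mem_singleton_iff] at h
        subst h
        exact hvC hyC
      have hSv : ∀ x ∈ S, x ∈ ({v}ᶜ : Set V) := by
        rintro x hx h
        rw [Set.mem_singleton_iff] at h
        subst h
        exact hvS hx
      intro p q hpq
      rcases hpq with h | ⟨h1, h2, h3⟩ | ⟨h1, h2, h3⟩
      · refine ⟨⟨G.ne_of_adj h.1.1, p, trivial, q, trivial, hoff p h.2.1, hoff q h.2.2, h.1.1⟩, h.1.2.1, h.1.2.2⟩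
      · subst h1
        exact ⟨hyS q h2, hyv, hSv q h2⟩
      · subst h1
        exact ⟨(hyS p h2).symm, hSv p h2, hyv⟩

end Pool.Agent.Helper13.TS
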